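import Pool.Agent.Lib.MP_b39aa3_co.Eleven

/-!
Clique steps in families of graphs: every density above `4/11`, and the reduction of the question
to finite weighted problems.
-/

set_option autoImplicit false

namespace Pool.Agent.Results.MP_b39aa3_co.FourElevenths

open Pool.Agent.Lib.MP_b39aa3_co Finset

theorem pattern_bound (t m n : ℕ) (hm : 0 < m) (hn : m * t ≤ n) (w : SimpleGraph (Fin t) → ℝ)
    (α : ℝ) (hw0 : ∀ H, 0 ≤ w H) (hW : ∑ H, w H = 1)
    (hα : ∀ I : Finset (SimpleGraph (Fin t)), Indep I → ∑ H ∈ I, w H ≤ α)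
    (F : Finset (SimpleGraph (Fin n))) (hF : Indep F) :
    (F.card : ℝ) ≤ (α + 2 ^ (t.choose 2) / √m) * 2 ^ (n.choose 2) := by
  obtain ⟨f, hf⟩ := exists_blocks t m n hn
  have hwM : ∀ H, w H ≤ 1 := fun H => by
    rw [← hW]
    exact Finset.single_le_sum (fun H _ => hw0 H) (Finset.mem_univ H)
  have h := transfer hm f hf w 1 α hw0 hwM (by rw [hW]; norm_num)
    (fun I hI => by rw [hW, mul_one]; exact hα I hI) F hF
  rw [hW, card_graph, card_graph, Fintype.card_fin, Fintype.card_fin, one_mul, one_mul] at h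
  push_cast at h
  linarith

/-- (1) Every family of more than the proportion `4/11` of all graphs on `[n]`, `n` large, contains
a clique step. (2) For every probability weight `w` on the graphs on `[t]` for which the families
without clique step have weight at most `α`, a family of graphs on `[n]`, `n ≥ m t`, without clique
step contains at most the proportion `α + 2 ^ (t choose 2) / √m` of all graphs. (3) Consequently
the question has a positive answer if and only if such weights exist with `α` arbitrarily small. -/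
theorem result :
    (∀ c : ℝ, 4 / 11 < c → ∃ N : ℕ, ∀ n : ℕ, N ≤ n → ∀ F : Finset (SimpleGraph (Fin n)),
      c * (2 : ℝ) ^ (n.choose 2) ≤ (F.card : ℝ) → ∃ G₁ ∈ F, ∃ G₂ ∈ F, CliqueStep G₁ G₂) ∧
    (∀ t m n : ℕ, 0 < m → m * t ≤ n → ∀ (w : SimpleGraph (Fin t) → ℝ) (α : ℝ),
      (∀ H, 0 ≤ w H) → ∑ H, w H = 1 →
      (∀ I : Finset (SimpleGraph (Fin t)), Indep I → ∑ H ∈ I, w H ≤ α) →
      ∀ F : Finset (SimpleGraph (Fin n)), Indep F →
        (F.card : ℝ) ≤ (α + 2 ^ (t.choose 2) / √m) * 2 ^ (n.choose 2)) ∧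
    ((∀ c : ℝ, 0 < c → ∃ N : ℕ, ∀ n : ℕ, N ≤ n → ∀ F : Finset (SimpleGraph (Fin n)),
      c * (2 : ℝ) ^ (n.choose 2) ≤ (F.card : ℝ) → ∃ G₁ ∈ F, ∃ G₂ ∈ F, CliqueStep G₁ G₂) ↔
      ∀ ε : ℝ, 0 < ε → ∃ (t : ℕ) (w : SimpleGraph (Fin t) → ℝ), (∀ H, 0 ≤ w H) ∧
        ∑ H, w H = 1 ∧ ∀ I : Finset (SimpleGraph (Fin t)), Indep I → ∑ H ∈ I, w H ≤ ε) := by
  refine ⟨four_eleven, pattern_bound, ⟨?_, ?_⟩⟩
  · intro h ε hε
    obtain ⟨N, hN⟩ := h ε hε
    have hΩ : (0 : ℝ) < 2 ^ (N.choose 2) := by positivity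
    refine ⟨N, fun _ => 1 / 2 ^ (N.choose 2), fun _ => by positivity, ?_, ?_⟩
    · rw [Finset.sum_const, Finset.card_univ, card_graph, Fintype.card_fin, nsmul_eq_mul]
      push_cast
      field_simp
    · intro I hI
      rw [Finset.sum_const, nsmul_eq_mul, mul_one_div, div_le_iff₀ hΩ]
      by_contra hcon
      push Not at hcon
      obtain ⟨G₁, h1, G₂, h2, h3⟩ := hN N le_rfl I hcon.le
      exact hI G₁ h1 G₂ h2 h3
  · intro h c hc
    obtain ⟨t, w, hw0, hW, hI⟩ := h (c / 2) (by linarith)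
    exact density_of_pattern t w (c / 2) hw0 (by rw [hW]; norm_num)
      (fun I hII => by rw [hW, mul_one]; exact hI I hII) c (by linarith)

end Pool.Agent.Results.MP_b39aa3_co.FourElevenths
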