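import Pool.Agent.Lib.MP_b39aa3_co.Rate

/-!
Large families of graphs without clique steps: at least the proportion `1 / (2 log₂ n + 2)` of all
graphs on `[n]`, for every `n ≥ 2`.
-/

set_option autoImplicit false

namespace Pool.Agent.Results.MP_b39aa3_co.LogarithmicFamilies

open Pool.Agent.Lib.MP_b39aa3_co Finset

/-- (1) For every `n ≥ 2` some family of at least `2 ^ (n choose 2) / (2 log₂ n + 2)` graphs on
`[n]` contains no clique step. (2) Consequently, if for some `0 < c ≤ 1` and `N` every family of at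
least `c 2 ^ (n choose 2)` graphs on `[n]`, `n ≥ N`, contains a clique step, then
`N > 2 ^ (1 / (2 c) - 1)`. -/
theorem result :
    (∀ n : ℕ, 2 ≤ n → ∃ F : Finset (SimpleGraph (Fin n)),
      (∀ G₁ ∈ F, ∀ G₂ ∈ F, ¬ CliqueStep G₁ G₂) ∧
      (2 : ℝ) ^ (n.choose 2) / (2 * Real.logb 2 n + 2) ≤ (F.card : ℝ)) ∧
    (∀ c : ℝ, 0 < c → c ≤ 1 → ∀ N : ℕ,
      (∀ n : ℕ, N ≤ n → ∀ F : Finset (SimpleGraph (Fin n)),
        c * (2 : ℝ) ^ (n.choose 2) ≤ (F.card : ℝ) → ∃ G₁ ∈ F, ∃ G₂ ∈ F, CliqueStep G₁ G₂) →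
      (2 : ℝ) ^ (1 / (2 * c) - 1) < (N : ℝ)) := by
  have h1 : ∀ n : ℕ, 2 ≤ n → ∃ F : Finset (SimpleGraph (Fin n)),
      (∀ G₁ ∈ F, ∀ G₂ ∈ F, ¬ CliqueStep G₁ G₂) ∧
      (2 : ℝ) ^ (n.choose 2) / (2 * Real.logb 2 n + 2) ≤ (F.card : ℝ) := by
    intro n hn
    obtain ⟨F, hF, hc⟩ := exists_family n hn
    refine ⟨F, hF, ?_⟩
    have hn1 : (1 : ℝ) ≤ n := by
      have : 1 ≤ n := by omega
      exact_mod_cast this
    have hl : 0 ≤ Real.logb 2 n := Real.logb_nonneg (by norm_num) hn1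
    rw [div_le_iff₀ (by positivity)]
    linarith
  refine ⟨h1, ?_⟩
  intro c hc hc1 N hN
  by_contra hcon
  push Not at hcon
  rcases Nat.lt_or_ge N 2 with hN2 | hN2
  · -- the one graph on one vertex
    obtain ⟨G₁, -, G₂, -, -, S, hS, -⟩ := hN 1 (by omega) Finset.univ (by
      rw [Finset.card_univ, card_graph, Fintype.card_fin]
      norm_num
      exact hc1)
    have := Finset.card_le_univ S
    rw [Fintype.card_fin] at this
    omega
  · obtain ⟨F, hF, hFc⟩ := h1 N hN2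
    have hN1 : (1 : ℝ) ≤ N := by
      have : 1 ≤ N := by omega
      exact_mod_cast this
    have hl : 0 ≤ Real.logb 2 N := Real.logb_nonneg (by norm_num) hN1
    have h2 : Real.logb 2 N ≤ 1 / (2 * c) - 1 := by
      rw [Real.logb_le_iff_le_rpow (by norm_num) (by linarith)]
      exact hcon
    have h3 : c * (2 * Real.logb 2 N + 2) ≤ 1 := by
      have h4 : c * (2 * (1 / (2 * c) - 1) + 2) = 1 := by
        field_simp
        ring
      nlinarith
    obtain ⟨G₁, hG₁, G₂, hG₂, hst⟩ := hN N le_rfl F (by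
      refine le_trans ?_ hFc
      rw [le_div_iff₀ (by positivity)]
      have hp : (0 : ℝ) < 2 ^ (N.choose 2) := by positivity
      nlinarith)
    exact hF G₁ hG₁ G₂ hG₂ hst

end Pool.Agent.Results.MP_b39aa3_co.LogarithmicFamilies
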