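import Pool.Agent.Lib.MP_b39aa3_co.Robust

/-!
Clique steps in families given by polynomials of bounded degree in the edges, with values in a
finite abelian group.
-/

set_option autoImplicit false

namespace Pool.Agent.Results.MP_b39aa3_co.PolynomialFamilies

open Pool.Agent.Lib.MP_b39aa3_co

/-- Let `Γ` be a finite abelian group and `d` a natural number. (1) There is `δ > 0` such that for
every `c > 0` and all large `n`: if a level set of a polynomial `P` of degree at most `d` on the
graphs on `[n]`, with coefficients in `Γ`, contains at least the proportion `c` of all graphs, then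
every family `F` containing at least the proportion `1 - δ` of this level set contains a clique
step. (2) For every `c > 0` and all large `n`, every union `F` of level sets of such a polynomial
with at least the proportion `c` of all graphs contains a clique step. (3) There is `M` such that
for every `n`, every such `P` and every graph `G` on `[n]` with an independent set of size `M` there
is a clique step `(G₁, G)` with `P G₁ = P G`. -/
theorem result (Γ : Type) [AddCommGroup Γ] [Finite Γ] (d : ℕ) :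
    (∃ δ : ℝ, 0 < δ ∧ ∀ c : ℝ, 0 < c → ∃ N : ℕ, ∀ n : ℕ, N ≤ n →
      ∀ P : SimpleGraph (Fin n) → Γ, IsPoly d P → ∀ (γ : Γ) (F : Finset (SimpleGraph (Fin n))),
      c * (2 : ℝ) ^ (n.choose 2) ≤ ({G | P G = γ}.ncard : ℝ) →
      (1 - δ) * ({G | P G = γ}.ncard : ℝ) ≤ ({G | G ∈ F ∧ P G = γ}.ncard : ℝ) →
      ∃ G₁ ∈ F, ∃ G₂ ∈ F, CliqueStep G₁ G₂) ∧
    (∀ c : ℝ, 0 < c → ∃ N : ℕ, ∀ n : ℕ, N ≤ n → ∀ P : SimpleGraph (Fin n) → Γ, IsPoly d P →
      ∀ F : Finset (SimpleGraph (Fin n)),
      (∀ G₁ ∈ F, ∀ G₂, P G₂ = P G₁ → G₂ ∈ F) → c * (2 : ℝ) ^ (n.choose 2) ≤ (F.card : ℝ) →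
      ∃ G₁ ∈ F, ∃ G₂ ∈ F, CliqueStep G₁ G₂) ∧
    (∃ M : ℕ, ∀ (n : ℕ) (P : SimpleGraph (Fin n) → Γ), IsPoly d P →
      ∀ (G : SimpleGraph (Fin n)) (I : Finset (Fin n)),
      (∀ u ∈ I, ∀ v ∈ I, ¬ G.Adj u v) → M ≤ I.card →
      ∃ G₁ : SimpleGraph (Fin n), CliqueStep G₁ G ∧ P G₁ = P G) := by
  classical
  refine ⟨?_, level_sets Γ d, pointwise Γ d⟩
  obtain ⟨δ, hδ, h⟩ := robust Γ d
  refine ⟨δ, hδ, fun c hc => ?_⟩
  obtain ⟨N, hN⟩ := h c hc
  refine ⟨N, fun n hn P hP γ F h1 h2 => ?_⟩
  have e1 : ({G | P G = γ} : Set (SimpleGraph (Fin n))).ncard =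
      (Finset.univ.filter fun G => P G = γ).card := by
    rw [← Set.ncard_coe_finset]
    congr 1
    ext G
    simp
  have e2 : {G | G ∈ F ∧ P G = γ}.ncard =
      ((((Finset.univ.filter fun G => P G = γ) : Finset (SimpleGraph (Fin n))) :
        Set (SimpleGraph (Fin n))) ∩ F).ncard := by
    congr 1
    ext G
    simp [and_comm]
  rw [e1] at h1 h2
  rw [e2] at h2
  exact hN n hn P hP (Finset.univ.filter fun G => P G = γ) F γ (fun G => by simp) h1 h2

end Pool.Agent.Results.MP_b39aa3_co.PolynomialFamilies
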