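import Pool.Agent.Lib.MP_b39aa3_co.Weak

/-!
The weaker assertion (symmetric difference equal to a clique) for all densities above `1/5`.
-/

set_option autoImplicit false

namespace Pool.Agent.Results.MP_b39aa3_co.SymmetricDifferenceFifth

open Pool.Agent.Lib.MP_b39aa3_co Finset
open scoped symmDiff

/-- The symmetric difference of the two graphs is a clique. -/
def CliqueDiff {n : ℕ} (G₁ G₂ : SimpleGraph (Fin n)) : Prop :=
  ∃ S : Finset (Fin n), 2 ≤ S.card ∧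
    ∀ u v : Fin n, Xor (G₁.Adj u v) (G₂.Adj u v) ↔ (u ∈ S ∧ v ∈ S ∧ u ≠ v)

theorem cliqueDiff_iff {n : ℕ} (G₁ G₂ : SimpleGraph (Fin n)) :
    CliqueDiff G₁ G₂ ↔ ∃ S : Finset (Fin n), 2 ≤ S.card ∧ G₁ ∆ G₂ = cliqueGraph S := by
  refine exists_congr fun S => and_congr_right fun _ => ?_
  constructor
  · intro h
    ext u v
    rw [symmDiff_adj]
    exact h u v
  · intro h u v
    have h2 := symmDiff_adj G₁ G₂ u v
    rw [h] at h2
    exact h2.symm

/-- (1) A family of graphs on `[n]` without two members whose symmetric difference is a clique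
contains at most the proportion `1/5 + 4(n+1)/(5 * 2^n)` of all graphs. (2) For every `c > 1/5` and
all large `n`, a family of at least the proportion `c` of all graphs on `[n]` contains two graphs
whose symmetric difference is a clique. -/
theorem result :
    (∀ (n : ℕ) (F : Finset (SimpleGraph (Fin n))),
      (∀ G₁ ∈ F, ∀ G₂ ∈ F, ¬ CliqueDiff G₁ G₂) →
      (F.card : ℝ) ≤ (1 / 5 + 4 * (n + 1) / (5 * 2 ^ n)) * 2 ^ (n.choose 2)) ∧
    (∀ c : ℝ, 1 / 5 < c → ∃ N : ℕ, ∀ n : ℕ, N ≤ n → ∀ F : Finset (SimpleGraph (Fin n)),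
      c * (2 : ℝ) ^ (n.choose 2) ≤ (F.card : ℝ) → ∃ G₁ ∈ F, ∃ G₂ ∈ F, CliqueDiff G₁ G₂) := by
  constructor
  · intro n F hF
    have h1 := weak_bound F (fun G₁ h1 G₂ h2 S h3 h4 =>
      hF G₁ h1 G₂ h2 ((cliqueDiff_iff _ _).2 ⟨S, h3, h4⟩))
    rw [card_graph, Fintype.card_fin] at h1
    have h2 : 5 * 2 ^ n * (F.card : ℝ) ≤ 2 ^ (n.choose 2) * (2 ^ n + 4 * (n + 1)) := by
      exact_mod_cast h1
    have h5 : (0 : ℝ) < 5 * 2 ^ n := by positivity
    have h6 : (1 / 5 + 4 * ((n : ℝ) + 1) / (5 * 2 ^ n)) * 2 ^ (n.choose 2) =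
        2 ^ (n.choose 2) * (2 ^ n + 4 * (n + 1)) / (5 * 2 ^ n) := by
      field_simp
    rw [h6, le_div_iff₀ h5]
    linarith
  · intro c hc
    obtain ⟨N, hN⟩ := weak_fifth c hc
    refine ⟨N, fun n hn F hF => ?_⟩
    obtain ⟨G₁, h1, G₂, h2, S, h3, h4⟩ := hN n hn F hF
    exact ⟨G₁, h1, G₂, h2, (cliqueDiff_iff _ _).2 ⟨S, h3, h4⟩⟩

end Pool.Agent.Results.MP_b39aa3_co.SymmetricDifferenceFifth
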